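import Pool.Agent.N682.MS.Stm
import Pool.Agent.N303.KS.Smo
import Pool.Agent.W661.RC.Stm3

/-!
# Project MS: the gap for almost representations of Kazhdan groups in the operator norm
-/

set_option autoImplicit false

namespace Pool.Agent.N531.MS

open Matrix Filter Topology
open Pool.Agent.W661.RC (HasT Mk Smo Mt hs)
open Pool.Agent.W681.RC (AA Mk_apply inner_AA)
open Pool.Agent.W637.RC.PTD (rp rf rf_sub vle)
open Pool.Agent.W683.RC (vc sqrt_hs sqrt_hs_sub_le hs_nonneg)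
open Pool.Agent.N682.MS

noncomputable section

section rep

variable {k : ℕ} {H : Type} [NormedAddCommGroup H] [InnerProductSpace ℂ H] [CompleteSpace H]

/-- eigenvectors of the Markov operator -/
theorem dsp_eq (ρ : FreeGroup (Fin k) →* unitary (H →L[ℂ] H)) (μ : ℝ) (v : H)
    (hv : Mk ρ v = (μ : ℂ) • v) : Dsp ρ v = 2 * (2 * k + 1) * (1 - μ) * ‖v‖ ^ 2 := by
  have hk : (0 : ℝ) < 2 * k + 1 := by positivity
  have h1 : AA ρ v = ((2 * μ - 1 : ℝ) : ℂ) • v := by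
    have h2 := Mk_apply ρ v
    rw [hv] at h2
    have h3 : (2 : ℂ) • ((μ : ℂ) • v) = v + AA ρ v := by
      rw [h2, smul_smul]
      norm_num
    have h4 : AA ρ v = (2 : ℂ) • ((μ : ℂ) • v) - v := by
      rw [h3]
      abel
    rw [h4, smul_smul]
    push_cast
    rw [sub_smul, one_smul]
  have h5 : v - AA ρ v = ((2 * (1 - μ) : ℝ) : ℂ) • v := by
    rw [h1]
    push_cast
    module
  have h6 := inner_AA ρ v
  have h7 : (inner ℂ v v).re = ‖v‖ ^ 2 := by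
    have := inner_self_eq_norm_sq (𝕜 := ℂ) v
    simpa using this
  rw [h5, inner_smul_right, Complex.re_ofReal_mul, h7] at h6
  unfold Dsp
  field_simp at h6
  linarith

theorem pow_eig (ρ : FreeGroup (Fin k) →* unitary (H →L[ℂ] H)) (μ : ℝ) (v : H)
    (hv : Mk ρ v = (μ : ℂ) • v) (K : ℕ) : (Mk ρ ^ K) v = ((μ ^ K : ℝ) : ℂ) • v := by
  induction K with
  | zero => simp
  | succ K ih =>
    have h1 : (Mk ρ ^ (K + 1)) v = (Mk ρ ^ K) (Mk ρ v) := by
      rw [pow_succ]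
      rfl
    rw [h1, hv, map_smul, ih, smul_smul]
    congr 1
    push_cast
    ring

theorem dsp_smul (ρ : FreeGroup (Fin k) →* unitary (H →L[ℂ] H)) (c : ℝ) (v : H) :
    Dsp ρ ((c : ℂ) • v) = c ^ 2 * Dsp ρ v := by
  unfold Dsp
  rw [Finset.mul_sum]
  refine Finset.sum_congr rfl fun s _ => ?_
  rw [map_smul, ← smul_sub, norm_smul, mul_pow, Complex.norm_real, Real.norm_eq_abs, sq_abs]

/-- smoothing gives a gap -/
theorem gap_of {C θ η : ℝ} (hC : 1 ≤ C) (hη : 0 < η) (hη1 : η ≤ 1 / 8) (hη2 : 2 * η ≤ θ)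
    (ρ : FreeGroup (Fin k) →* unitary (H →L[ℂ] H)) (K : ℕ) (hS : ∀ ξ : H, Smo ρ K C η ξ) :
    Gp ρ (1 / (16 * C * (2 * k + 1))) θ := by
  intro μ v hv0 hv
  by_contra hcon
  push Not at hcon
  obtain ⟨h1, h2⟩ := hcon
  have hk : (1 : ℝ) ≤ 2 * k + 1 := by
    have : (0 : ℝ) ≤ k := Nat.cast_nonneg k
    linarith
  have hN : 0 < ‖v‖ ^ 2 := by
    have := norm_pos_iff.2 hv0
    positivity
  obtain ⟨h3, h4⟩ := hS v
  have e1 : ∑ s, ‖(ρ (FreeGroup.of s) : H →L[ℂ] H) v - v‖ ^ 2 = Dsp ρ v := rfl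
  have e2 : ∑ s, ‖(ρ (FreeGroup.of s) : H →L[ℂ] H) ((Mk ρ ^ K) v) - (Mk ρ ^ K) v‖ ^ 2 =
      (μ ^ K) ^ 2 * Dsp ρ v := by
    rw [← dsp_smul, ← pow_eig ρ μ v hv K]
    rfl
  have e3 : ‖(Mk ρ ^ K) v - v‖ ^ 2 = (μ ^ K - 1) ^ 2 * ‖v‖ ^ 2 := by
    have : (Mk ρ ^ K) v - v = ((μ ^ K - 1 : ℝ) : ℂ) • v := by
      rw [pow_eig ρ μ v hv K]
      push_cast
      rw [sub_smul, one_smul]
    rw [this, norm_smul, mul_pow, Complex.norm_real, Real.norm_eq_abs, sq_abs]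
  rw [e2, dsp_eq ρ μ v hv] at h3
  rw [e3, e1, dsp_eq ρ μ v hv] at h4
  set N := ‖v‖ ^ 2 with hNd
  set q := μ ^ K with hq
  have h5 : C * (2 * (2 * k + 1) * (1 - μ) * N) ≤ 1 / 8 * N := by
    have h6 : 1 - μ < 1 / (16 * C * (2 * k + 1)) := by linarith
    have h7 : (1 - μ) * (16 * C * (2 * k + 1)) < 1 := by
      rwa [lt_div_iff₀ (by positivity)] at h6
    nlinarith
  have h6 : (q - 1) ^ 2 ≤ 1 / 4 := by
    have : (q - 1) ^ 2 * N ≤ 1 / 4 * N := by nlinarith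
    exact le_of_mul_le_mul_right this hN
  have h7 : 1 / 2 ≤ q := by nlinarith
  have h8 : 1 / 4 ≤ q ^ 2 := by nlinarith
  have h9 : q ^ 2 * (2 * (2 * k + 1) * (1 - μ)) ≤ η := by
    have : (q ^ 2 * (2 * (2 * k + 1) * (1 - μ))) * N ≤ η * N := by linarith
    exact le_of_mul_le_mul_right this hN
  have h10 : θ < 1 - μ := by linarith
  have hμ : 0 < 1 - μ := by linarith
  have h11 : 1 / 4 * (2 * 1 * (1 - μ)) ≤ q ^ 2 * (2 * (2 * k + 1) * (1 - μ)) := by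
    apply mul_le_mul h8 _ (by positivity) (by positivity)
    apply mul_le_mul_of_nonneg_right _ hμ.le
    linarith
  linarith

end rep

theorem t_gap : S_GAP := by
  intro k C hC
  have hk : (0 : ℝ) < 2 * k + 1 := by positivity
  refine ⟨1 / (16 * C * (2 * k + 1)), by positivity, fun θ hθ => ?_⟩
  have h1 : 0 < min (1 / 8) (θ / 2) := lt_min (by norm_num) (by linarith)
  refine ⟨min (1 / 8) (θ / 2), h1, ?_⟩
  intro H _ _ _ ρ K hS
  refine gap_of hC h1 (min_le_left _ _) ?_ ρ K hS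
  have := min_le_right (1 / 8) (θ / 2)
  linarith

theorem lf_le {k d : ℕ} (U : Fin k → Matrix.unitaryGroup (Fin d) ℂ) (w : FreeGroup (Fin k))
    (ξ : EuclideanSpace ℂ (Fin d)) :
    ‖((lf U w : unitary _) : EuclideanSpace ℂ (Fin d) →L[ℂ] EuclideanSpace ℂ (Fin d)) ξ - ξ‖ ≤
      opn ((FreeGroup.lift U w).val - 1) * ‖ξ‖ := by
  have h1 : ((lf U w : unitary _) : EuclideanSpace ℂ (Fin d) →L[ℂ] EuclideanSpace ℂ (Fin d)) ξ - ξ =
      Matrix.toEuclideanCLM (𝕜 := ℂ) ((FreeGroup.lift U w).val - 1) ξ := by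
    rw [map_sub, map_one]
    rfl
  rw [h1]
  exact ContinuousLinearMap.le_opNorm _ _

open scoped Matrix.Norms.L2Operator in
theorem sqrt_hs_le {d : ℕ} (a x : Mt d) : √(hs (a * x)) ≤ opn a * √(hs x) := by
  have h1 := Pool.Agent.W661.RC.hs_mul_le_op a x
  have h2 : opn a = ‖a‖ := rfl
  have h3 : 0 ≤ opn a := norm_nonneg _
  rw [← h2] at h1
  calc √(hs (a * x)) ≤ √(opn a ^ 2 * hs x) := Real.sqrt_le_sqrt h1
    _ = opn a * √(hs x) := by rw [Real.sqrt_mul (by positivity), Real.sqrt_sq h3]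

open scoped Matrix.Norms.L2Operator in
theorem sqrt_hs_le' {d : ℕ} (a x : Mt d) : √(hs (x * a)) ≤ opn a * √(hs x) := by
  have h1 := Pool.Agent.W661.RC.hs_mul_le_op' a x
  have h2 : opn a = ‖a‖ := rfl
  have h3 : 0 ≤ opn a := norm_nonneg _
  rw [← h2] at h1
  calc √(hs (x * a)) ≤ √(opn a ^ 2 * hs x) := Real.sqrt_le_sqrt h1
    _ = opn a * √(hs x) := by rw [Real.sqrt_mul (by positivity), Real.sqrt_sq h3]

theorem cf_le {k d : ℕ} (U : Fin k → Matrix.unitaryGroup (Fin d) ℂ) (w : FreeGroup (Fin k))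
    (ξ : EuclideanSpace ℂ (Fin d × Fin d)) :
    ‖((cf U w : unitary _) : EuclideanSpace ℂ (Fin d × Fin d) →L[ℂ]
      EuclideanSpace ℂ (Fin d × Fin d)) ξ - ξ‖ ≤
      2 * opn ((FreeGroup.lift U w).val - 1) * ‖ξ‖ := by
  obtain ⟨x, rfl⟩ := vle.surjective ξ
  have h0 : vle x = vc x := rfl
  rw [h0]
  have h1 := rf_sub U w x
  have h2 : ‖((cf U w : unitary _) : EuclideanSpace ℂ (Fin d × Fin d) →L[ℂ]
      EuclideanSpace ℂ (Fin d × Fin d)) (vc x) - vc x‖ =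
      √(hs ((FreeGroup.lift U w : Mt d) * x - x * (FreeGroup.lift U w : Mt d))) := by
    rw [← h1, Real.sqrt_sq (norm_nonneg _)]
    rfl
  rw [h2]
  set V : Mt d := (FreeGroup.lift U w).val with hV
  have h3 : V * x - x * V = (V - 1) * x - x * (V - 1) := by noncomm_ring
  rw [h3, ← sqrt_hs]
  have h4 := sqrt_hs_sub_le ((V - 1) * x) (x * (V - 1))
  have h5 := sqrt_hs_le (V - 1) x
  have h6 := sqrt_hs_le' (V - 1) x
  linarith

theorem t_gapm : S_GAPM := by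
  intro Γ _ k γ hT hγ
  obtain ⟨C, hC, hsm⟩ := Pool.Agent.N303.KS.smoothing γ hT hγ
  obtain ⟨κ, hκ, hgap⟩ := t_gap k C hC
  refine ⟨κ, hκ, fun θ hθ => ?_⟩
  obtain ⟨η, hη, hG⟩ := hgap θ hθ
  obtain ⟨K, δ0, hδ0, R, hR, hall⟩ := hsm η hη
  refine ⟨δ0 / 2, by positivity, R, hR, fun d U hU => ⟨?_, ?_⟩⟩
  · refine hG _ (lf U) K fun ξ => hall _ (lf U) ξ fun w hw => ?_
    refine (lf_le U w ξ).trans (mul_le_mul_of_nonneg_right ?_ (norm_nonneg _))
    have := hU w hw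
    linarith
  · refine hG _ (cf U) K fun ξ => hall _ (cf U) ξ fun w hw => ?_
    refine (cf_le U w ξ).trans (mul_le_mul_of_nonneg_right ?_ (norm_nonneg _))
    have := hU w hw
    linarith

end

end Pool.Agent.N531.MS
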